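import Mathlib

/-! Definitions for MP_24ecc9_an: fuzzy sets, endograph metric, dense proximality. -/

namespace Pool.Agent.X194.FZ

open Set Topology Filter Metric

/-- `u ∈ 𝓕(X)`: `u : X → [0,1]` upper semicontinuous, `u⁻¹(1)` non-empty, closure of `{u > 0}`
compact. -/
structure IsFuzzy {X : Type} [MetricSpace X] (u : X → ℝ) : Prop where
  usc : UpperSemicontinuous u
  nonneg : ∀ x, 0 ≤ u x
  le_one : ∀ x, u x ≤ 1
  normal : ∃ x, u x = 1
  compact : IsCompact (closure {x | 0 < u x})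

/-- Zadeh extension: `y ↦ sup {u x : f x = y}`, with `sup ∅ = 0` (in Lean `sSup ∅ = 0` in `ℝ`). -/
noncomputable def zadeh {X : Type} (f : X → X) (u : X → ℝ) : X → ℝ :=
  fun y => sSup {r | ∃ x, f x = y ∧ r = u x}

/-- The endograph `{(x,t) : 0 ≤ t ≤ 1, t ≤ u x}`. -/
def endograph {X : Type} (u : X → ℝ) : Set (X × ℝ) := {p | 0 ≤ p.2 ∧ p.2 ≤ 1 ∧ p.2 ≤ u p.1}

/-- The endograph distance: Hausdorff distance of the endographs for the maximum metric. -/
noncomputable def dE {X : Type} [MetricSpace X] (u v : X → ℝ) : ℝ :=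
  hausdorffDist (endograph u) (endograph v)

/-- The Zadeh extension on `(𝓕(X), d_E)` has a dense proximal relation. -/
def DenseProximalFuzzy {X : Type} [MetricSpace X] (f : X → X) : Prop :=
  ∀ u v : X → ℝ, IsFuzzy u → IsFuzzy v → ∀ ε > 0, ∃ u' v' : X → ℝ, IsFuzzy u' ∧ IsFuzzy v' ∧
    dE u u' < ε ∧ dE v v' < ε ∧
    ∀ δ > 0, ∀ N : ℕ, ∃ n ≥ N, dE ((zadeh f)^[n] u') ((zadeh f)^[n] v') < δ

/-- The hyperextension on `(𝓚(X), d_H)` has a dense proximal relation. -/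
def DenseProximalHyper {X : Type} [MetricSpace X] (f : X → X) : Prop :=
  ∀ K L : Set X, IsCompact K → K.Nonempty → IsCompact L → L.Nonempty → ∀ ε > 0,
    ∃ K' L' : Set X, IsCompact K' ∧ K'.Nonempty ∧ IsCompact L' ∧ L'.Nonempty ∧
      hausdorffDist K K' < ε ∧ hausdorffDist L L' < ε ∧
      ∀ δ > 0, ∀ N : ℕ, ∃ n ≥ N, hausdorffDist (f^[n] '' K') (f^[n] '' L') < δ

end Pool.Agent.X194.FZ
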