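import Mathlib

/-! The space for MP_24ecc9_an. -/

namespace Pool.Agent.X194.FZ

open Set Topology Filter

/-! ### an embedding of the labels -/

/-- embedding of the labels in `[0,1]`, 2-adic topology -/
noncomputable def kap (a : ℕ) : ℝ :=
  if h : a = 0 then 0 else (2 * ((a % 2 : ℕ) : ℝ) + kap (a / 2)) / 3
termination_by a
decreasing_by omega

lemma kap_zero : kap 0 = 0 := by rw [kap]; simp

lemma kap_eq (a : ℕ) : kap a = (2 * ((a % 2 : ℕ) : ℝ) + kap (a / 2)) / 3 := by
  by_cases h : a = 0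
  · subst h; simp [kap_zero]
  · rw [kap, dif_neg h]

lemma kap_mem (a : ℕ) : 0 ≤ kap a ∧ kap a ≤ 1 := by
  induction a using Nat.strong_induction_on with
  | _ a ih =>
    by_cases h : a = 0
    · subst h; simp [kap_zero]
    · obtain ⟨h1, h2⟩ := ih (a / 2) (by omega)
      rw [kap_eq]
      rcases Nat.mod_two_eq_zero_or_one a with h3 | h3
      · rw [h3]; simp only [Nat.cast_zero]; constructor <;> linarith
      · rw [h3]; simp only [Nat.cast_one]; constructor <;> linarith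

lemma kap_sep (m : ℕ) : ∀ a b : ℕ, |kap a - kap b| < (1 / 3) ^ m → a % 2 ^ m = b % 2 ^ m := by
  induction m with
  | zero => intro a b _; simp [Nat.mod_one]
  | succ m ih =>
    intro a b h
    have ha := kap_mem (a / 2)
    have hb := kap_mem (b / 2)
    have h13 : ((1 : ℝ) / 3) ^ m ≤ 1 := pow_le_one₀ (by norm_num) (by norm_num)
    have h13' : (0 : ℝ) < (1 / 3) ^ m := by positivity
    rw [kap_eq a, kap_eq b, pow_succ] at h
    rw [abs_lt] at h
    have hpar : a % 2 = b % 2 := by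
      rcases Nat.mod_two_eq_zero_or_one a with h3 | h3 <;>
        rcases Nat.mod_two_eq_zero_or_one b with h4 | h4
      · rw [h3, h4]
      · exfalso
        rw [h3, h4] at h
        simp only [Nat.cast_zero, Nat.cast_one] at h
        linarith [h.1, h.2]
      · exfalso
        rw [h3, h4] at h
        simp only [Nat.cast_zero, Nat.cast_one] at h
        linarith [h.1, h.2]
      · rw [h3, h4]
    rw [hpar] at h
    have h5 : |kap (a / 2) - kap (b / 2)| < (1 / 3) ^ m := by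
      rw [abs_lt]; constructor <;> linarith [h.1, h.2]
    have h6 := ih _ _ h5
    rw [pow_succ, mul_comm, Nat.mod_mul, Nat.mod_mul, h6, hpar]

lemma kap_close (m : ℕ) : ∀ a b : ℕ, a % 2 ^ m = b % 2 ^ m → |kap a - kap b| ≤ (1 / 3) ^ m := by
  induction m with
  | zero =>
    intro a b _
    have ha := kap_mem a
    have hb := kap_mem b
    rw [pow_zero, abs_le]; constructor <;> linarith
  | succ m ih =>
    intro a b h
    rw [pow_succ, mul_comm, Nat.mod_mul, Nat.mod_mul] at h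
    have h1 : a % 2 = b % 2 := by omega
    have h2 : a / 2 % 2 ^ m = b / 2 % 2 ^ m := by omega
    have h3 := ih _ _ h2
    rw [abs_le] at h3
    rw [kap_eq a, kap_eq b, h1, pow_succ, abs_le]
    constructor <;> linarith [h3.1, h3.2]

lemma kap_inj {a b : ℕ} (h : kap a = kap b) : a = b := by
  have h1 := kap_sep (a + b) a b (by rw [h, sub_self, abs_zero]; positivity)
  have h2 : a < 2 ^ (a + b) := lt_of_lt_of_le Nat.lt_two_pow_self
    (Nat.pow_le_pow_right (by norm_num) (by omega))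
  have h3 : b < 2 ^ (a + b) := lt_of_lt_of_le Nat.lt_two_pow_self
    (Nat.pow_le_pow_right (by norm_num) (by omega))
  rwa [Nat.mod_eq_of_lt h2, Nat.mod_eq_of_lt h3] at h1

/-! ### data attached to labels -/

/-- block of a label -/
def blk (a : ℕ) : ℕ := Nat.sqrt (Nat.log 2 a)

/-- index of a label -/
def idx (a : ℕ) : ℕ := Nat.log 2 a - blk a ^ 2

/-- height of the centre of the segment -/
noncomputable def yy (a : ℕ) : ℝ := TopologicalSpace.denseSeq ℝ (idx a)

/-- half-length of the segment -/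
noncomputable def ee (a : ℕ) : ℝ := 1 / ((a : ℝ) + 1)

lemma ee_pos (a : ℕ) : 0 < ee a := by unfold ee; positivity

lemma lt_of_blk {a k : ℕ} (h : blk a = k) : a < 2 ^ ((k + 1) ^ 2) := by
  have h1 : Nat.log 2 a < (k + 1) ^ 2 := by
    have := Nat.lt_succ_sqrt' (Nat.log 2 a)
    unfold blk at h
    rw [h] at this
    exact this
  exact Nat.lt_pow_of_log_lt (by norm_num) h1

lemma new_label {a j k : ℕ} (hj : j ≤ 2 * k) (ha : a < 2 ^ (k ^ 2)) :
    blk (a + 2 ^ (k ^ 2 + j)) = k ∧ idx (a + 2 ^ (k ^ 2 + j)) = j := by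
  have h0 : 2 ^ (k ^ 2) ≤ 2 ^ (k ^ 2 + j) := Nat.pow_le_pow_right (by norm_num) (by omega)
  have h1 : Nat.log 2 (a + 2 ^ (k ^ 2 + j)) = k ^ 2 + j := by
    have h5 : 2 ^ (k ^ 2 + j + 1) = 2 ^ (k ^ 2 + j) * 2 := pow_succ _ _
    exact Nat.log_eq_of_pow_le_of_lt_pow (by omega) (by omega)
  have h2 : blk (a + 2 ^ (k ^ 2 + j)) = k := by
    unfold blk
    rw [h1]
    refine (Nat.eq_sqrt.2 ?_).symm
    constructor
    · nlinarith
    · nlinarith
  refine ⟨h2, ?_⟩
  unfold idx
  rw [h2, h1]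
  omega

lemma mod_new_label {a j k m : ℕ} (hm : m ≤ k ^ 2 + j) :
    (a + 2 ^ (k ^ 2 + j)) % 2 ^ m = a % 2 ^ m := by
  obtain ⟨d, hd⟩ := Nat.exists_eq_add_of_le hm
  rw [hd, pow_add, Nat.add_mul_mod_self_left]

/-! ### the height functions -/

/-- clamp to `[-1,1]` -/
noncomputable def clamp (x : ℝ) : ℝ := max (-1) (min 1 x)

lemma continuous_clamp : Continuous clamp := by unfold clamp; fun_prop

lemma clamp_le (x : ℝ) : clamp x ≤ 1 := max_le (by norm_num) (min_le_left _ _)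

lemma clamp_eq {x : ℝ} (h1 : -1 ≤ x) (h2 : x ≤ 1) : clamp x = x := by
  unfold clamp; rw [min_eq_right h2, max_eq_right h1]

/-- the height function on the strip of the residue `c` at the event `e` -/
noncomputable def HH (e c : ℕ) (Y : ℝ) : ℝ :=
  if blk c = (Nat.unpair e).1 then
    ((e : ℝ) + 1) ^ 2 * (clamp ((Y - yy c) / ee c) - c / ((e : ℝ) + 1))
  else ((e : ℝ) + 1) ^ 2 * (3 + c)

lemma continuous_HH (e c : ℕ) : Continuous (HH e c) := by
  unfold HH
  split_ifs
  · refine continuous_const.mul ((continuous_clamp.comp ?_).sub continuous_const)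
    exact (continuous_id.sub continuous_const).div_const _
  · exact continuous_const

/-- the residue of a label at time `n` -/
def res (n a : ℕ) : ℕ := a % 2 ^ ((Nat.sqrt n + 1) ^ 2)

/-- the height at time `n` -/
noncomputable def hh (n a : ℕ) (Y : ℝ) : ℝ := HH (Nat.sqrt n) (res n a) Y

/-! ### the space -/

/-- the space: levels, labels, positions -/
structure Xp where
  /-- level -/
  n : ℕ
  /-- label -/
  a : ℕ
  /-- position in the segment -/
  s : Icc (-1 : ℝ) 1

/-- second coordinate in the plane -/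
noncomputable def YY (a : ℕ) (s : ℝ) : ℝ := yy a + ee a * s

/-- the embedding -/
noncomputable def Phi (x : Xp) : ℝ × ℝ × ℝ × ℝ :=
  ((1 / 2) ^ x.n, (1 / 2) ^ x.n * kap x.a, (1 / 2) ^ x.n * YY x.a x.s, hh x.n x.a (YY x.a x.s))

lemma Phi_inj : Function.Injective Phi := by
  rintro ⟨n, a, s⟩ ⟨n', a', s'⟩ h
  simp only [Phi, Prod.mk.injEq] at h
  obtain ⟨h1, h2, h3, -⟩ := h
  have hn : n = n' := by
    have : StrictAnti fun k : ℕ => (1 / 2 : ℝ) ^ k :=
      pow_right_strictAnti₀ (by norm_num) (by norm_num)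
    exact this.injective h1
  subst hn
  have h12 : (0 : ℝ) < (1 / 2) ^ n := by positivity
  have ha : a = a' := kap_inj (mul_left_cancel₀ h12.ne' h2)
  subst ha
  have hY : YY a s = YY a s' := mul_left_cancel₀ h12.ne' h3
  unfold YY at hY
  have hs : (s : ℝ) = s' := by
    have := add_left_cancel hY
    exact mul_left_cancel₀ (ee_pos a).ne' this
  rw [Subtype.ext hs]

noncomputable instance : MetricSpace Xp := MetricSpace.induced Phi Phi_inj inferInstance

lemma dist_def (x y : Xp) : dist x y = dist (Phi x) (Phi y) := rfl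

lemma dist_le_iff {x y : Xp} {r : ℝ} : dist x y ≤ r ↔
    |((1 / 2 : ℝ)) ^ x.n - (1 / 2) ^ y.n| ≤ r ∧
    |(1 / 2) ^ x.n * kap x.a - (1 / 2) ^ y.n * kap y.a| ≤ r ∧
    |(1 / 2) ^ x.n * YY x.a x.s - (1 / 2) ^ y.n * YY y.a y.s| ≤ r ∧
    |hh x.n x.a (YY x.a x.s) - hh y.n y.a (YY y.a y.s)| ≤ r := by
  rw [dist_def, Prod.dist_eq, Prod.dist_eq, Prod.dist_eq]
  simp only [Phi, Real.dist_eq, max_le_iff]

lemma dist_lt_iff {x y : Xp} {r : ℝ} : dist x y < r ↔
    |((1 / 2 : ℝ)) ^ x.n - (1 / 2) ^ y.n| < r ∧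
    |(1 / 2) ^ x.n * kap x.a - (1 / 2) ^ y.n * kap y.a| < r ∧
    |(1 / 2) ^ x.n * YY x.a x.s - (1 / 2) ^ y.n * YY y.a y.s| < r ∧
    |hh x.n x.a (YY x.a x.s) - hh y.n y.a (YY y.a y.s)| < r := by
  rw [dist_def, Prod.dist_eq, Prod.dist_eq, Prod.dist_eq]
  simp only [Phi, Real.dist_eq, max_lt_iff]

lemma continuous_Phi : Continuous Phi := continuous_induced_dom

lemma level_eq {n n' : ℕ} (h : |((1 / 2 : ℝ)) ^ n' - (1 / 2) ^ n| < (1 / 2) ^ (n + 1)) : n' = n := by
  rw [abs_lt] at h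
  by_contra hne
  have h12 : (0 : ℝ) < (1 / 2) ^ n := by positivity
  rcases lt_or_gt_of_ne hne with h1 | h1
  · have h2 : ((1 : ℝ) / 2) ^ n ≤ (1 / 2) ^ (n' + 1) :=
      pow_le_pow_of_le_one (by norm_num) (by norm_num) h1
    rw [pow_succ] at h2
    have h3 := h.2
    rw [pow_succ] at h3
    linarith
  · have h2 : ((1 : ℝ) / 2) ^ n' ≤ (1 / 2) ^ (n + 1) :=
      pow_le_pow_of_le_one (by norm_num) (by norm_num) h1
    have h3 := h.1
    rw [pow_succ] at h2 h3
    linarith

lemma eventually_level (x : Xp) : ∀ᶠ y in 𝓝 x, y.n = x.n := by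
  have h1 : ∀ᶠ y in 𝓝 x, dist y x < (1 / 2) ^ (x.n + 1) :=
    Metric.eventually_nhds_iff.2 ⟨_, by positivity, fun _ h => h⟩
  filter_upwards [h1] with y hy
  exact level_eq (dist_lt_iff.1 hy).1

lemma eventually_mod (x : Xp) (m : ℕ) : ∀ᶠ y in 𝓝 x, y.a % 2 ^ m = x.a % 2 ^ m := by
  have h1 : ∀ᶠ y in 𝓝 x, dist y x < (1 / 2) ^ x.n * (1 / 3) ^ m :=
    Metric.eventually_nhds_iff.2 ⟨_, by positivity, fun _ h => h⟩
  filter_upwards [h1, eventually_level x] with y hy hn
  have h2 := (dist_lt_iff.1 hy).2.1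
  rw [hn, ← mul_sub, abs_mul, abs_of_pos (by positivity : (0 : ℝ) < (1 / 2) ^ x.n)] at h2
  exact kap_sep m _ _ (lt_of_mul_lt_mul_left h2 (by positivity))

lemma continuous_level : Continuous fun x : Xp => x.n := by
  rw [continuous_iff_continuousAt]
  intro x
  refine (continuousAt_const (y := x.n)).congr ?_
  filter_upwards [eventually_level x] with y hy
  exact hy.symm

lemma continuous_Y : Continuous fun x : Xp => YY x.a x.s := by
  have h1 : Continuous fun x : Xp => (Phi x).2.2.1 :=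
    continuous_fst.comp (continuous_snd.comp (continuous_snd.comp continuous_Phi))
  have h2 : Continuous fun x : Xp => (2 : ℝ) ^ x.n := by
    have : Continuous fun n : ℕ => (2 : ℝ) ^ n := continuous_of_discreteTopology
    exact this.comp continuous_level
  have h3 : (fun x : Xp => YY x.a x.s) = fun x : Xp => (2 : ℝ) ^ x.n * (Phi x).2.2.1 := by
    funext x
    simp only [Phi]
    rw [← mul_assoc, ← mul_pow]
    norm_num
  rw [h3]
  exact h2.mul h1

lemma continuous_hh (g : ℕ → ℕ) : Continuous fun x : Xp => hh (g x.n) x.a (YY x.a x.s) := by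
  rw [continuous_iff_continuousAt]
  intro x
  have h1 : ContinuousAt (fun y : Xp => HH (Nat.sqrt (g x.n)) (res (g x.n) x.a) (YY y.a y.s)) x :=
    ((continuous_HH _ _).comp continuous_Y).continuousAt
  refine h1.congr ?_
  filter_upwards [eventually_level x, eventually_mod x ((Nat.sqrt (g x.n) + 1) ^ 2)] with y hy hm
  unfold hh res
  rw [hy, hm]

/-- the map -/
def f (x : Xp) : Xp := ⟨x.n + 1, x.a, x.s⟩

lemma f_iter (m : ℕ) (x : Xp) : f^[m] x = ⟨x.n + m, x.a, x.s⟩ := by
  induction m generalizing x with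
  | zero => rfl
  | succ m ih =>
    rw [Function.iterate_succ_apply, ih]
    simp only [f]
    congr 1
    omega

lemma f_inj : Function.Injective f := by
  rintro ⟨n, a, s⟩ ⟨n', a', s'⟩ h
  simp only [f, Xp.mk.injEq] at h
  obtain ⟨h1, h2, h3⟩ := h
  rw [h2, h3, Nat.succ_injective h1]

lemma continuous_f : Continuous f := by
  refine continuous_induced_rng.2 ?_
  have h1 : Continuous fun x : Xp => ((1 / 2 : ℝ)) ^ (x.n + 1) := by
    have : Continuous fun n : ℕ => ((1 / 2 : ℝ)) ^ (n + 1) := continuous_of_discreteTopology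
    exact this.comp continuous_level
  have h2 : Continuous fun x : Xp => (Phi x).2.1 :=
    continuous_fst.comp (continuous_snd.comp continuous_Phi)
  have h3 : Continuous fun x : Xp => (Phi x).2.2.1 :=
    continuous_fst.comp (continuous_snd.comp (continuous_snd.comp continuous_Phi))
  have h4 := continuous_hh (fun n => n + 1)
  have h5 : Phi ∘ f = fun x : Xp => ((1 / 2 : ℝ) ^ (x.n + 1), (Phi x).2.1 / 2,
      (Phi x).2.2.1 / 2, hh (x.n + 1) x.a (YY x.a x.s)) := by
    funext x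
    simp only [Phi, f, Function.comp_apply, pow_succ, Prod.mk.injEq]
    refine ⟨trivial, by ring, by ring, trivial⟩
  rw [h5]
  exact h1.prodMk ((h2.div_const 2).prodMk ((h3.div_const 2).prodMk h4))

/-- the segments -/
def seg (n c : ℕ) (s : Icc (-1 : ℝ) 1) : Xp := ⟨n, c, s⟩

lemma continuous_seg (n c : ℕ) : Continuous (seg n c) := by
  refine continuous_induced_rng.2 ?_
  have h1 : Continuous fun s : Icc (-1 : ℝ) 1 => YY c s := by
    unfold YY
    exact continuous_const.add (continuous_const.mul continuous_subtype_val)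
  have h2 : Continuous fun s : Icc (-1 : ℝ) 1 => hh n c (YY c s) :=
    (continuous_HH (Nat.sqrt n) (res n c)).comp h1
  have h3 : Continuous fun s : Icc (-1 : ℝ) 1 => ((1 / 2 : ℝ) ^ n, (1 / 2 : ℝ) ^ n * kap c,
      (1 / 2 : ℝ) ^ n * YY c s, hh n c (YY c s)) :=
    continuous_const.prodMk (continuous_const.prodMk ((continuous_const.mul h1).prodMk h2))
  exact h3

/-- centres are dense, in every late block -/
lemma exists_centre (x : Xp) {ε : ℝ} (hε : 0 < ε) :
    ∃ k₀, ∀ k ≥ k₀, ∃ c, blk c = k ∧ dist (⟨x.n, c, ⟨0, by norm_num⟩⟩ : Xp) x < ε := by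
  set Y := YY x.a x.s with hY
  set m := (Nat.sqrt x.n + 1) ^ 2 with hm
  obtain ⟨δ, hδ, hcont⟩ := Metric.continuous_iff.1
    (continuous_HH (Nat.sqrt x.n) (res x.n x.a)) Y ε hε
  obtain ⟨j, hj⟩ : ∃ j, dist (TopologicalSpace.denseSeq ℝ j) Y < min δ ε := by
    obtain ⟨y, hy, ⟨j, rfl⟩⟩ := Metric.dense_iff.1 (TopologicalSpace.denseRange_denseSeq ℝ) Y
      (min δ ε) (lt_min hδ hε)
    exact ⟨j, hy⟩
  obtain ⟨r, hr⟩ := exists_pow_lt_of_lt_one hε (by norm_num : (1 / 3 : ℝ) < 1)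
  refine ⟨j + x.a + m + r + 1, fun k hk => ?_⟩
  have hkk : k ≤ k ^ 2 := by nlinarith
  have hak : x.a < 2 ^ (k ^ 2) := lt_of_lt_of_le Nat.lt_two_pow_self
    (Nat.pow_le_pow_right (by norm_num) (by omega))
  obtain ⟨hb, hi⟩ := new_label (a := x.a) (j := j) (k := k) (by omega) hak
  refine ⟨x.a + 2 ^ (k ^ 2 + j), hb, ?_⟩
  have hYc : YY (x.a + 2 ^ (k ^ 2 + j)) 0 = TopologicalSpace.denseSeq ℝ j := by
    unfold YY yy; rw [hi]; ring
  have hres : res x.n (x.a + 2 ^ (k ^ 2 + j)) = res x.n x.a := by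
    unfold res
    rw [← hm]
    exact mod_new_label (by omega)
  have h12 : (0 : ℝ) < (1 / 2) ^ x.n := by positivity
  have h12' : ((1 : ℝ) / 2) ^ x.n ≤ 1 := pow_le_one₀ (by norm_num) (by norm_num)
  rw [dist_lt_iff]
  refine ⟨by simpa using hε, ?_, ?_, ?_⟩
  · show |(1 / 2) ^ x.n * kap (x.a + 2 ^ (k ^ 2 + j)) - (1 / 2) ^ x.n * kap x.a| < ε
    rw [← mul_sub, abs_mul, abs_of_pos h12]
    have h1 := kap_close r (x.a + 2 ^ (k ^ 2 + j)) x.a (mod_new_label (by omega))
    calc (1 / 2) ^ x.n * |kap (x.a + 2 ^ (k ^ 2 + j)) - kap x.a|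
        ≤ 1 * (1 / 3) ^ r := mul_le_mul h12' h1 (abs_nonneg _) zero_le_one
      _ < ε := by rw [one_mul]; exact hr
  · show |(1 / 2) ^ x.n * YY (x.a + 2 ^ (k ^ 2 + j)) 0 - (1 / 2) ^ x.n * YY x.a x.s| < ε
    rw [← mul_sub, abs_mul, abs_of_pos h12, hYc, ← hY]
    rw [Real.dist_eq] at hj
    have h2 := lt_of_lt_of_le hj (min_le_right _ _)
    calc (1 / 2) ^ x.n * |TopologicalSpace.denseSeq ℝ j - Y|
        ≤ 1 * |TopologicalSpace.denseSeq ℝ j - Y| :=
          mul_le_mul_of_nonneg_right h12' (abs_nonneg _)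
      _ < ε := by rw [one_mul]; exact h2
  · show |hh x.n (x.a + 2 ^ (k ^ 2 + j)) (YY (x.a + 2 ^ (k ^ 2 + j)) 0) - hh x.n x.a (YY x.a x.s)| < ε
    unfold hh
    rw [hres, hYc, ← hY]
    have := hcont _ (lt_of_lt_of_le hj (min_le_left _ _))
    rwa [Real.dist_eq] at this

end Pool.Agent.X194.FZ
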