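import Mathlib
import Pool.Agent.X194.FZ.Space
import Pool.Agent.X194.FZ.Defs

/-! The hyperspace has no dense proximal relation. -/

namespace Pool.Agent.X194.FZ

open Set Topology Filter Metric

lemma HH_in {e a : ℕ} (ha : blk a = (Nat.unpair e).1) (s : Icc (-1 : ℝ) 1) :
    HH e a (YY a s) = ((e : ℝ) + 1) ^ 2 * (s - a / ((e : ℝ) + 1)) := by
  unfold HH
  rw [if_pos ha]
  have h : (YY a s - yy a) / ee a = s := by
    unfold YY
    have := (ee_pos a).ne'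
    field_simp
    ring
  rw [h, clamp_eq s.2.1 s.2.2]

lemma HH_le {e c : ℕ} (hc : blk c = (Nat.unpair e).1) (Y : ℝ) : HH e c Y ≤ ((e : ℝ) + 1) ^ 2 := by
  unfold HH
  rw [if_pos hc]
  have h1 := clamp_le ((Y - yy c) / ee c)
  have h2 : (0 : ℝ) ≤ c / ((e : ℝ) + 1) := by positivity
  have h3 : (0 : ℝ) ≤ ((e : ℝ) + 1) ^ 2 := by positivity
  nlinarith

lemma HH_out {e c : ℕ} (hc : blk c ≠ (Nat.unpair e).1) (Y : ℝ) :
    HH e c Y = ((e : ℝ) + 1) ^ 2 * (3 + c) := by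
  unfold HH
  rw [if_neg hc]

/-- if two strips of different residues have close heights, both residues are in the block -/
lemma in_of_close {e c c' : ℕ} (hcc : c ≠ c') {Y Y' : ℝ} (h : |HH e c Y - HH e c' Y'| < 1 / 4) :
    blk c = (Nat.unpair e).1 ∧ blk c' = (Nat.unpair e).1 := by
  have hM : (1 : ℝ) ≤ ((e : ℝ) + 1) ^ 2 := by nlinarith [(Nat.cast_nonneg e : (0 : ℝ) ≤ e)]
  rw [abs_lt] at h
  by_cases h1 : blk c = (Nat.unpair e).1 <;> by_cases h2 : blk c' = (Nat.unpair e).1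
  · exact ⟨h1, h2⟩
  · exfalso
    rw [HH_out h2] at h
    have h3 := HH_le h1 Y
    have h4 : (0 : ℝ) ≤ c' := Nat.cast_nonneg _
    nlinarith [h.1, h.2]
  · exfalso
    rw [HH_out h1] at h
    have h3 := HH_le h2 Y'
    have h4 : (0 : ℝ) ≤ c := Nat.cast_nonneg _
    nlinarith [h.1, h.2]
  · exfalso
    rw [HH_out h1, HH_out h2, ← mul_sub] at h
    rcases lt_or_gt_of_ne hcc with h3 | h3
    · have h4 : (c : ℝ) + 1 ≤ c' := by exact_mod_cast h3
      nlinarith [h.1, h.2]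
    · have h4 : (c' : ℝ) + 1 ≤ c := by exact_mod_cast h3
      nlinarith [h.1, h.2]

/-- the maximum argument -/
lemma no_match {Z : Set Xp} (hZ : IsCompact Z) (hne : Z.Nonempty) {B : ℕ}
    (hB : ∀ x ∈ Z, x.a < 2 ^ B)
    (h : ∀ N : ℕ, ∃ e : ℕ, N ≤ e ∧ ∀ x ∈ Z, ∃ y ∈ Z, y.a ≠ x.a ∧
      |((e : ℝ) + 1) ^ 2 * ((x.s : ℝ) - x.a / ((e : ℝ) + 1)) -
        ((e : ℝ) + 1) ^ 2 * ((y.s : ℝ) - y.a / ((e : ℝ) + 1))| < 1 / 4) : False := by
  classical
  -- `s` is continuous on `Z`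
  have hmodc : Continuous fun x : Xp => x.a % 2 ^ B := by
    rw [continuous_iff_continuousAt]
    intro x
    refine (continuousAt_const (y := x.a % 2 ^ B)).congr ?_
    filter_upwards [eventually_mod x B] with y hy
    exact hy.symm
  have hscont : ContinuousOn (fun x : Xp => (x.s : ℝ)) Z := by
    have h1 : Continuous fun x : Xp => (YY x.a x.s - yy (x.a % 2 ^ B)) / ee (x.a % 2 ^ B) := by
      have h2 : Continuous fun n : ℕ => yy n := continuous_of_discreteTopology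
      have h3 : Continuous fun n : ℕ => ee n := continuous_of_discreteTopology
      exact (continuous_Y.sub (h2.comp hmodc)).div (h3.comp hmodc) fun x => (ee_pos _).ne'
    refine h1.continuousOn.congr fun x hx => ?_
    show (x.s : ℝ) = (YY x.a x.s - yy (x.a % 2 ^ B)) / ee (x.a % 2 ^ B)
    rw [Nat.mod_eq_of_lt (hB x hx)]
    unfold YY
    have := (ee_pos x.a).ne'
    field_simp
    ring
  obtain ⟨x₀, hx₀, hmax⟩ := hZ.exists_isMaxOn hne hscont
  have hmax' : ∀ y ∈ Z, (y.s : ℝ) ≤ x₀.s := fun y hy => hmax hy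
  set S : ℝ := (x₀.s : ℝ) with hS
  -- minimal label attaining the maximum
  have hex : ∃ a, ∃ x ∈ Z, x.a = a ∧ (x.s : ℝ) = S := ⟨x₀.a, x₀, hx₀, rfl, rfl⟩
  set a := Nat.find hex with ha
  obtain ⟨x, hxZ, hxa, hxs⟩ := Nat.find_spec hex
  rw [← ha] at hxa
  have hmin : ∀ y ∈ Z, (y.s : ℝ) = S → a ≤ y.a := fun y hy hys =>
    Nat.find_min' hex ⟨y, hy, rfl, hys⟩
  -- uniform gap for smaller labels
  obtain ⟨S', hS', hgap⟩ : ∃ S' < S, ∀ y ∈ Z, y.a < a → (y.s : ℝ) ≤ S' := by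
    have hcl : IsClosed {y : Xp | y.a % 2 ^ B < a} :=
      (isClosed_discrete (Iio a)).preimage hmodc
    have hset : IsCompact (Z ∩ {y : Xp | y.a % 2 ^ B < a}) := hZ.inter_right hcl
    rcases (Z ∩ {y : Xp | y.a % 2 ^ B < a}).eq_empty_or_nonempty with h0 | h0
    · refine ⟨S - 1, by linarith, fun y hy hya => ?_⟩
      exfalso
      have : y ∈ Z ∩ {y : Xp | y.a % 2 ^ B < a} := ⟨hy, by
        show y.a % 2 ^ B < a
        rw [Nat.mod_eq_of_lt (hB y hy)]; exact hya⟩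
      rw [h0] at this
      exact this
    · obtain ⟨y₀, hy₀, hy₀max⟩ := hset.exists_isMaxOn h0 (hscont.mono inter_subset_left)
      refine ⟨(y₀.s : ℝ), ?_, fun y hy hya => ?_⟩
      · refine lt_of_le_of_ne (hmax' y₀ hy₀.1) fun heq => ?_
        have h1 := hmin y₀ hy₀.1 heq
        have h2 : y₀.a % 2 ^ B < a := hy₀.2
        rw [Nat.mod_eq_of_lt (hB y₀ hy₀.1)] at h2
        omega
      · exact hy₀max ⟨hy, by
          show y.a % 2 ^ B < a
          rw [Nat.mod_eq_of_lt (hB y hy)]; exact hya⟩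
  -- large event
  obtain ⟨N, hN⟩ := exists_nat_gt (((a : ℝ) + 1) / (S - S'))
  obtain ⟨e, he, hmatch⟩ := h N
  obtain ⟨y, hyZ, hya, hclose⟩ := hmatch x hxZ
  have hSS : 0 < S - S' := by linarith
  have heN : (N : ℝ) ≤ e := by exact_mod_cast he
  have he1 : (0 : ℝ) < (e : ℝ) + 1 := by positivity
  rw [hxa, hxs] at hclose
  have hk : ∀ u w : ℝ, ((e : ℝ) + 1) ^ 2 * (u - w / ((e : ℝ) + 1)) =
      ((e : ℝ) + 1) ^ 2 * u - ((e : ℝ) + 1) * w := by
    intro u w; field_simp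
  rw [hk, hk, abs_lt] at hclose
  have hys := hmax' y hyZ
  rcases lt_or_gt_of_ne (hxa ▸ hya : y.a ≠ a) with h1 | h1
  · have h2 := hgap y hyZ h1
    have h3 : (0 : ℝ) ≤ y.a := Nat.cast_nonneg _
    have h4 : ((a : ℝ) + 1) < (S - S') * ((e : ℝ) + 1) := by
      rw [div_lt_iff₀ hSS] at hN
      nlinarith
    -- (e+1)^2 (S - y.s) < 1/4 + (e+1) a
    have h5 : ((e : ℝ) + 1) * (((e : ℝ) + 1) * (S - y.s)) < ((e : ℝ) + 1) * (a + 1) := by
      have : ((e : ℝ) + 1) * y.a ≥ 0 := by positivity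
      nlinarith [hclose.2, (Nat.cast_nonneg e : (0 : ℝ) ≤ e)]
    have h6 := lt_of_mul_lt_mul_left h5 he1.le
    have h7 : ((e : ℝ) + 1) * (S - S') ≤ ((e : ℝ) + 1) * (S - y.s) :=
      mul_le_mul_of_nonneg_left (by linarith) he1.le
    linarith
  · have h2 : (a : ℝ) + 1 ≤ y.a := by exact_mod_cast h1
    have h3 : ((e : ℝ) + 1) ^ 2 * y.s ≤ ((e : ℝ) + 1) ^ 2 * S :=
      mul_le_mul_of_nonneg_left hys (by positivity)
    nlinarith [hclose.2, (Nat.cast_nonneg e : (0 : ℝ) ≤ e)]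

lemma blk_unpair_large {e a : ℕ} (hae : a ≤ e) : a < 2 ^ ((e + 1) ^ 2) :=
  lt_of_le_of_lt hae (lt_of_lt_of_le Nat.lt_two_pow_self
    (Nat.pow_le_pow_right (by norm_num) (by nlinarith)))

lemma not_denseProximalHyper : ¬ DenseProximalHyper f := by
  intro h
  let p : Xp := ⟨0, 0, ⟨0, by norm_num⟩⟩
  let q : Xp := ⟨0, 1, ⟨0, by norm_num⟩⟩
  obtain ⟨K, L, hK, hKne, hL, hLne, hpK, hqL, hprox⟩ := h {p} {q} isCompact_singleton
    (singleton_nonempty _) isCompact_singleton (singleton_nonempty _) (1 / 4) (by norm_num)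
  have hKp : ∀ x ∈ K, dist p x < 1 / 4 := by
    intro x hx
    obtain ⟨y, hy, hyx⟩ := exists_dist_lt_of_hausdorffDist_lt' hx hpK
      (hausdorffEDist_ne_top_of_nonempty_of_bounded (singleton_nonempty _) hKne
        Bornology.isBounded_singleton hK.isBounded)
    rw [mem_singleton_iff] at hy
    rwa [hy] at hyx
  have hLq : ∀ x ∈ L, dist q x < 1 / 4 := by
    intro x hx
    obtain ⟨y, hy, hyx⟩ := exists_dist_lt_of_hausdorffDist_lt' hx hqL
      (hausdorffEDist_ne_top_of_nonempty_of_bounded (singleton_nonempty _) hLne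
        Bornology.isBounded_singleton hL.isBounded)
    rw [mem_singleton_iff] at hy
    rwa [hy] at hyx
  have hlev : ∀ (c : ℕ) (x : Xp), dist (⟨0, c, ⟨0, by norm_num⟩⟩ : Xp) x < 1 / 4 →
      x.n = 0 ∧ |kap c - kap x.a| < 1 / 4 := by
    intro c x hx
    have h1 := dist_lt_iff.1 hx
    have h2 : x.n = 0 := level_eq (n := 0) (n' := x.n) (by
      rw [abs_sub_comm]
      refine lt_trans h1.1 (by norm_num))
    refine ⟨h2, ?_⟩
    have h3 := h1.2.1
    rw [h2] at h3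
    simpa using h3
  have hk0 : kap 0 = 0 := kap_zero
  have hk1 : kap 1 = 2 / 3 := by
    rw [kap_eq]; norm_num [kap_zero]
  have hKlev : ∀ x ∈ K, x.n = 0 ∧ x.a % 2 = 0 := by
    intro x hx
    obtain ⟨h1, h2⟩ := hlev 0 x (hKp x hx)
    refine ⟨h1, ?_⟩
    rw [hk0, kap_eq x.a] at h2
    have h3 := kap_mem (x.a / 2)
    rw [abs_lt] at h2
    rcases Nat.mod_two_eq_zero_or_one x.a with h4 | h4
    · exact h4
    · exfalso
      rw [h4] at h2
      simp only [Nat.cast_one] at h2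
      linarith [h2.1]
  have hLlev : ∀ x ∈ L, x.n = 0 ∧ x.a % 2 = 1 := by
    intro x hx
    obtain ⟨h1, h2⟩ := hlev 1 x (hLq x hx)
    refine ⟨h1, ?_⟩
    rw [hk1, kap_eq x.a] at h2
    have h3 := kap_mem (x.a / 2)
    rw [abs_lt] at h2
    rcases Nat.mod_two_eq_zero_or_one x.a with h4 | h4
    · exfalso
      rw [h4] at h2
      simp only [Nat.cast_zero] at h2
      linarith [h2.2]
    · exact h4
  -- matching
  have hmatch : ∀ N : ℕ, ∃ n : ℕ, N ≤ Nat.sqrt n ∧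
      (∀ x ∈ K, ∃ y ∈ L, |hh n x.a (YY x.a x.s) - hh n y.a (YY y.a y.s)| < 1 / 4) ∧
      (∀ y ∈ L, ∃ x ∈ K, |hh n y.a (YY y.a y.s) - hh n x.a (YY x.a x.s)| < 1 / 4) := by
    intro N
    obtain ⟨n, hn, hd⟩ := hprox (1 / 4) (by norm_num) (N * N)
    have hfin : hausdorffEDist (f^[n] '' K) (f^[n] '' L) ≠ ⊤ :=
      hausdorffEDist_ne_top_of_nonempty_of_bounded (hKne.image _) (hLne.image _)
        (hK.image (continuous_f.iterate n)).isBounded (hL.image (continuous_f.iterate n)).isBounded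
    have hdist : ∀ x y : Xp, x.n = 0 → y.n = 0 → dist (f^[n] x) (f^[n] y) < 1 / 4 →
        |hh n x.a (YY x.a x.s) - hh n y.a (YY y.a y.s)| < 1 / 4 := by
      intro x y hx hy hxy
      rw [f_iter, f_iter, hx, hy, zero_add] at hxy
      exact (dist_lt_iff.1 hxy).2.2.2
    refine ⟨n, Nat.le_sqrt.2 hn, fun x hx => ?_, fun y hy => ?_⟩
    · obtain ⟨y', ⟨y, hy, rfl⟩, hxy⟩ :=
        exists_dist_lt_of_hausdorffDist_lt (mem_image_of_mem _ hx) hd hfin
      exact ⟨y, hy, hdist x y (hKlev x hx).1 (hLlev y hy).1 hxy⟩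
    · obtain ⟨x', ⟨x, hx, rfl⟩, hxy⟩ :=
        exists_dist_lt_of_hausdorffDist_lt' (mem_image_of_mem _ hy) hd hfin
      rw [dist_comm] at hxy
      exact ⟨x, hx, hdist y x (hLlev y hy).1 (hKlev x hx).1 hxy⟩
  -- residues of different parity are different
  have hres : ∀ n a b : ℕ, a % 2 ≠ b % 2 → res n a ≠ res n b := by
    intro n a b hab hr
    apply hab
    unfold res at hr
    have h1 : 2 ∣ 2 ^ ((Nat.sqrt n + 1) ^ 2) := dvd_pow_self 2 (by positivity)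
    rw [← Nat.mod_mod_of_dvd a h1, ← Nat.mod_mod_of_dvd b h1, hr]
  -- all labels lie in one block
  obtain ⟨x₁, hx₁⟩ := hKne
  set k := blk x₁.a with hk
  have hblk : ∀ z ∈ K ∪ L, blk z.a = k := by
    intro z hz
    obtain ⟨n, hn, h1, h2⟩ := hmatch (x₁.a + z.a)
    have hin : ∀ w ∈ K ∪ L, blk (res n w.a) = (Nat.unpair (Nat.sqrt n)).1 := by
      rintro w (hw | hw)
      · obtain ⟨y, hy, hyw⟩ := h1 w hw
        exact (in_of_close (hres n _ _ (by rw [(hKlev w hw).2, (hLlev y hy).2]; norm_num)) hyw).1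
      · obtain ⟨x, hx, hxw⟩ := h2 w hw
        exact (in_of_close (hres n _ _ (by rw [(hKlev x hx).2, (hLlev w hw).2]; norm_num)) hxw).1
    have e1 := hin x₁ (Or.inl hx₁)
    have e2 := hin z hz
    unfold res at e1 e2
    rw [Nat.mod_eq_of_lt (blk_unpair_large (by omega))] at e1 e2
    rw [e2, hk, e1]
  have hlt : ∀ z ∈ K ∪ L, z.a < 2 ^ ((k + 1) ^ 2) := fun z hz => lt_of_blk (hblk z hz)
  refine no_match (hK.union hL) ⟨x₁, Or.inl hx₁⟩ hlt fun N => ?_
  obtain ⟨n, hn, h1, h2⟩ := hmatch (N + k)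
  refine ⟨Nat.sqrt n, by omega, ?_⟩
  have hin : ∀ w ∈ K ∪ L, blk (res n w.a) = (Nat.unpair (Nat.sqrt n)).1 := by
    rintro w (hw | hw)
    · obtain ⟨y, hy, hyw⟩ := h1 w hw
      exact (in_of_close (hres n _ _ (by rw [(hKlev w hw).2, (hLlev y hy).2]; norm_num)) hyw).1
    · obtain ⟨x, hx, hxw⟩ := h2 w hw
      exact (in_of_close (hres n _ _ (by rw [(hKlev x hx).2, (hLlev w hw).2]; norm_num)) hxw).1
  have hresz : ∀ z ∈ K ∪ L, res n z.a = z.a := by
    intro z hz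
    unfold res
    refine Nat.mod_eq_of_lt (lt_of_lt_of_le (hlt z hz) ?_)
    refine Nat.pow_le_pow_right (by norm_num) ?_
    have : k + 1 ≤ Nat.sqrt n + 1 := by omega
    exact Nat.pow_le_pow_left this 2
  have hval : ∀ z ∈ K ∪ L, hh n z.a (YY z.a z.s) =
      ((Nat.sqrt n : ℝ) + 1) ^ 2 * ((z.s : ℝ) - z.a / ((Nat.sqrt n : ℝ) + 1)) := by
    intro z hz
    unfold hh
    have e1 := hin z hz
    rw [hresz z hz] at e1 ⊢
    exact HH_in e1 z.s
  rintro w (hw | hw)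
  · obtain ⟨y, hy, hyw⟩ := h1 w hw
    refine ⟨y, Or.inr hy, fun hyx => ?_, ?_⟩
    · have e1 := (hKlev w hw).2
      have e2 := (hLlev y hy).2
      rw [hyx] at e2
      omega
    · rwa [hval w (Or.inl hw), hval y (Or.inr hy)] at hyw
  · obtain ⟨x, hx, hxw⟩ := h2 w hw
    refine ⟨x, Or.inl hx, fun hyx => ?_, ?_⟩
    · have e1 := (hKlev x hx).2
      have e2 := (hLlev w hw).2
      rw [hyx] at e1
      omega
    · rwa [hval w (Or.inr hw), hval x (Or.inl hx)] at hxw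

end Pool.Agent.X194.FZ
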