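import Mathlib
import Pool.Agent.X194.FZ.Space
import Pool.Agent.X194.FZ.Defs
import Pool.Agent.X194.FZ.Hyper

/-! The Zadeh extension has a dense proximal relation. -/

namespace Pool.Agent.X194.FZ

open Set Topology Filter Metric

/-! ### iterates of the Zadeh extension -/

lemma zadeh_apply {u : Xp → ℝ} (x : Xp) : zadeh f u (f x) = u x := by
  unfold zadeh
  have : {r | ∃ y, f y = f x ∧ r = u y} = {u x} := by
    ext r
    constructor
    · rintro ⟨y, hy, rfl⟩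
      rw [f_inj hy]; rfl
    · intro hr
      exact ⟨x, rfl, hr⟩
  rw [this, csSup_singleton]

lemma zadeh_not_range {u : Xp → ℝ} {y : Xp} (h : ∀ x, f x ≠ y) : zadeh f u y = 0 := by
  unfold zadeh
  have : {r | ∃ x, f x = y ∧ r = u x} = ∅ := by
    ext r
    constructor
    · rintro ⟨x, hx, -⟩
      exact absurd hx (h x)
    · intro hr; exact absurd hr (notMem_empty r)
  rw [this, Real.sSup_empty]

lemma zadeh_iter_apply (m : ℕ) (u : Xp → ℝ) (x : Xp) : (zadeh f)^[m] u (f^[m] x) = u x := by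
  induction m with
  | zero => rfl
  | succ m ih =>
    rw [Function.iterate_succ_apply', Function.iterate_succ_apply', zadeh_apply, ih]

lemma zadeh_iter_ne {m : ℕ} {u : Xp → ℝ} {y : Xp} (h : (zadeh f)^[m] u y ≠ 0) :
    ∃ x, y = f^[m] x := by
  induction m generalizing y with
  | zero => exact ⟨y, rfl⟩
  | succ m ih =>
    rw [Function.iterate_succ_apply'] at h
    by_cases hy : ∃ x, f x = y
    · obtain ⟨x, rfl⟩ := hy
      rw [zadeh_apply] at h
      obtain ⟨z, rfl⟩ := ih h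
      exact ⟨z, by rw [Function.iterate_succ_apply']⟩
    · push Not at hy
      exact absurd (zadeh_not_range hy) h

lemma zadeh_iter_nonneg {m : ℕ} {u : Xp → ℝ} (hu : ∀ x, 0 ≤ u x) (y : Xp) :
    0 ≤ (zadeh f)^[m] u y := by
  by_cases h : (zadeh f)^[m] u y = 0
  · rw [h]
  · obtain ⟨x, rfl⟩ := zadeh_iter_ne h
    rw [zadeh_iter_apply]; exact hu x

/-! ### tents -/

/-- union of tents of width `δ` at the centres of segments -/
noncomputable def tent (w : ℕ × ℕ → ℝ) (δ : ℝ) (z : Xp) : ℝ :=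
  w (z.n, z.a) * max 0 (1 - |(z.s : ℝ)| / δ)

/-- admissible weights -/
structure Adm (w : ℕ × ℕ → ℝ) : Prop where
  nonneg : ∀ p, 0 ≤ w p
  le_one : ∀ p, w p ≤ 1
  fin : {p | w p ≠ 0}.Finite
  norm : ∃ p, w p = 1

lemma tent_nonneg {w : ℕ × ℕ → ℝ} (hw : Adm w) (δ : ℝ) (z : Xp) : 0 ≤ tent w δ z :=
  mul_nonneg (hw.nonneg _) (le_max_left _ _)

lemma isFuzzy_tent {w : ℕ × ℕ → ℝ} (hw : Adm w) {δ : ℝ} (hδ : 0 < δ) : IsFuzzy (tent w δ) := by
  have hcov : ∀ r : ℝ, 0 ≤ r → {z | r < tent w δ z} ⊆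
      ⋃ p ∈ {p | w p ≠ 0}, seg p.1 p.2 '' univ := by
    intro r hr z hz
    have hz' : r < tent w δ z := hz
    have hne : w (z.n, z.a) ≠ 0 := by
      intro h
      unfold tent at hz'
      rw [h, zero_mul] at hz'
      linarith
    exact mem_biUnion (show (z.n, z.a) ∈ {p | w p ≠ 0} from hne) ⟨z.s, mem_univ _, rfl⟩
  have hcpt : IsCompact (⋃ p ∈ {p | w p ≠ 0}, seg p.1 p.2 '' univ) :=
    hw.fin.isCompact_biUnion fun p _ => isCompact_univ.image (continuous_seg _ _)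
  refine ⟨?_, tent_nonneg hw δ, fun z => ?_, ?_, ?_⟩
  · rw [upperSemicontinuous_iff_isClosed_preimage]
    intro r
    rcases le_or_gt r 0 with hr | hr
    · have : tent w δ ⁻¹' Ici r = univ := by
        ext z
        simp only [mem_preimage, mem_Ici, mem_univ, iff_true]
        exact hr.trans (tent_nonneg hw δ z)
      rw [this]; exact isClosed_univ
    · have : tent w δ ⁻¹' Ici r = ⋃ p ∈ {p | w p ≠ 0}, seg p.1 p.2 ''
          {s : Icc (-1 : ℝ) 1 | r ≤ w p * max 0 (1 - |(s : ℝ)| / δ)} := by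
        ext z
        constructor
        · intro hz
          have hz' : r ≤ tent w δ z := hz
          have hne : w (z.n, z.a) ≠ 0 := by
            intro h
            unfold tent at hz'
            rw [h, zero_mul] at hz'
            linarith
          exact mem_biUnion (show (z.n, z.a) ∈ {p | w p ≠ 0} from hne) ⟨z.s, hz', rfl⟩
        · intro hz
          obtain ⟨p, -, s, hs, rfl⟩ := mem_iUnion₂.1 hz
          exact hs
      rw [this]
      refine hw.fin.isClosed_biUnion fun p _ => ?_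
      have hcl : IsClosed {s : Icc (-1 : ℝ) 1 | r ≤ w p * max 0 (1 - |(s : ℝ)| / δ)} := by
        refine isClosed_le continuous_const ?_
        fun_prop
      exact (hcl.isCompact.image (continuous_seg _ _)).isClosed
  · unfold tent
    have h1 : max 0 (1 - |(z.s : ℝ)| / δ) ≤ 1 :=
      max_le (by norm_num) (by have : 0 ≤ |(z.s : ℝ)| / δ := by positivity
                               linarith)
    exact mul_le_one₀ (hw.le_one _) (le_max_left _ _) h1
  · obtain ⟨p, hp⟩ := hw.norm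
    refine ⟨⟨p.1, p.2, ⟨0, by norm_num⟩⟩, ?_⟩
    unfold tent
    simp [hp]
  · exact hcpt.of_isClosed_subset isClosed_closure (closure_minimal (hcov 0 le_rfl) hcpt.isClosed)

/-- one side of the proximality of two unions of tents in the same block -/
lemma one_side {k : ℕ} {w₁ w₂ : ℕ × ℕ → ℝ} (h₁ : Adm w₁) (h₂ : Adm w₂)
    (hb₁ : ∀ p, w₁ p ≠ 0 → blk p.2 = k) (hb₂ : ∀ p, w₂ p ≠ 0 → blk p.2 = k) {δ : ℝ} (hδ : 0 < δ)
    (hδ2 : δ ≤ 1 / 2) {η : ℝ} (hη : 0 < η) :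
    ∃ E : ℕ, ∀ e ≥ E, (Nat.unpair e).1 = k →
      ∀ p ∈ endograph ((zadeh f)^[e ^ 2] (tent w₁ δ)),
        ∃ p' ∈ endograph ((zadeh f)^[e ^ 2] (tent w₂ δ)), dist p p' ≤ η := by
  classical
  obtain ⟨⟨n₂, b⟩, hnb⟩ := h₂.norm
  have hbb : blk b = k := hb₂ (n₂, b) (by rw [hnb]; norm_num)
  -- bounds
  obtain ⟨B, hB1, hB2⟩ : ∃ B : ℕ, (∀ p, w₁ p ≠ 0 → p.1 ≤ B ∧ p.2 ≤ B) ∧ n₂ ≤ B ∧ b ≤ B := by
    refine ⟨h₁.fin.toFinset.sup (fun p => p.1 + p.2) + n₂ + b, fun p hp => ?_, by omega, by omega⟩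
    have : p.1 + p.2 ≤ h₁.fin.toFinset.sup (fun p => p.1 + p.2) :=
      Finset.le_sup (f := fun p : ℕ × ℕ => p.1 + p.2) (h₁.fin.mem_toFinset.2 hp)
    omega
  obtain ⟨R, hR1, hR⟩ : ∃ R : ℝ, 1 ≤ R ∧ ∀ c ≤ B, ∀ s : Icc (-1 : ℝ) 1, |YY c s| ≤ R := by
    refine ⟨1 + ∑ c ∈ Finset.range (B + 1), |yy c|, ?_, fun c hc s => ?_⟩
    · have : 0 ≤ ∑ c ∈ Finset.range (B + 1), |yy c| := Finset.sum_nonneg fun _ _ => abs_nonneg _
      linarith
    · have h1 : |yy c| ≤ ∑ c ∈ Finset.range (B + 1), |yy c| :=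
        Finset.single_le_sum (f := fun c => |yy c|) (fun _ _ => abs_nonneg _)
          (Finset.mem_range.2 (by omega))
      have h2 : |(s : ℝ)| ≤ 1 := abs_le.2 s.2
      have h3 : ee c ≤ 1 := by
        unfold ee
        rw [div_le_one (by positivity)]
        linarith [(Nat.cast_nonneg c : (0 : ℝ) ≤ c)]
      unfold YY
      calc |yy c + ee c * s| ≤ |yy c| + |ee c * s| := abs_add_le _ _
        _ ≤ |yy c| + 1 := by
          rw [abs_mul, abs_of_pos (ee_pos c)]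
          have := mul_le_one₀ h3 (abs_nonneg (s : ℝ)) h2
          linarith
        _ ≤ _ := by linarith
  have hR0 : 0 < R := by linarith
  obtain ⟨E₁, hE₁⟩ := exists_nat_gt ((B : ℝ) / (δ * η) + 2 * B)
  obtain ⟨E₂, hE₂⟩ := exists_pow_lt_of_lt_one (show 0 < η / (2 * R) by positivity)
    (by norm_num : (1 / 2 : ℝ) < 1)
  refine ⟨E₁ + E₂ + B, fun e he hek p hp => ?_⟩
  obtain ⟨x, t⟩ := p
  obtain ⟨ht0, ht1, htx⟩ := hp
  simp only at ht0 ht1 htx
  rcases ht0.eq_or_lt with ht | ht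
  · refine ⟨(x, t), ⟨ht0, ht1, ?_⟩, by rw [dist_self]; exact hη.le⟩
    rw [← ht]
    exact zadeh_iter_nonneg (tent_nonneg h₂ δ) x
  obtain ⟨z, rfl⟩ := zadeh_iter_ne (lt_of_lt_of_le ht htx).ne'
  rw [zadeh_iter_apply] at htx
  obtain ⟨n, c, s⟩ := z
  have hw1 : w₁ (n, c) ≠ 0 := by
    intro h
    unfold tent at htx
    simp only [h, zero_mul] at htx
    linarith
  have hts : t ≤ 1 - |(s : ℝ)| / δ := by
    unfold tent at htx
    simp only at htx
    rcases le_or_gt (1 - |(s : ℝ)| / δ) 0 with h | h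
    · rw [max_eq_left h, mul_zero] at htx
      linarith
    · rw [max_eq_right h.le] at htx
      have := mul_le_mul_of_nonneg_right (h₁.le_one (n, c)) h.le
      linarith
  obtain ⟨hnB, hcB⟩ := hB1 (n, c) hw1
  simp only at hnB hcB
  have hbc : blk c = k := hb₁ (n, c) hw1
  have he1 : (0 : ℝ) < (e : ℝ) + 1 := by positivity
  have heE : (E₁ : ℝ) ≤ e := by exact_mod_cast (by omega : E₁ ≤ e)
  have hBe : (B : ℝ) / ((e : ℝ) + 1) ≤ δ * η := by
    rw [div_le_iff₀ he1]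
    have h1 : (B : ℝ) / (δ * η) < (e : ℝ) + 1 := by
      have : (0 : ℝ) ≤ B := Nat.cast_nonneg _
      linarith
    rw [div_lt_iff₀ (by positivity)] at h1
    linarith
  have hBe2 : (B : ℝ) / ((e : ℝ) + 1) ≤ 1 / 2 := by
    rw [div_le_iff₀ he1]
    have h1 : 0 ≤ (B : ℝ) / (δ * η) := by positivity
    linarith
  have hs : |(s : ℝ)| ≤ δ := by
    have h1 : |(s : ℝ)| / δ ≤ 1 := by linarith
    rwa [div_le_one hδ] at h1
  -- the new position
  set s' : ℝ := s - c / ((e : ℝ) + 1) + b / ((e : ℝ) + 1) with hs'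
  have hcb : |(b : ℝ) / ((e : ℝ) + 1) - c / ((e : ℝ) + 1)| ≤ B / ((e : ℝ) + 1) := by
    rw [← sub_div, abs_div, abs_of_pos he1]
    refine div_le_div_of_nonneg_right ?_ he1.le
    rw [abs_le]
    have h1 : (b : ℝ) ≤ B := by exact_mod_cast hB2.2
    have h2 : (c : ℝ) ≤ B := by exact_mod_cast hcB
    have h3 : (0 : ℝ) ≤ b := Nat.cast_nonneg _
    have h4 : (0 : ℝ) ≤ c := Nat.cast_nonneg _
    constructor <;> linarith
  have hs'1 : |s'| ≤ |(s : ℝ)| + B / ((e : ℝ) + 1) := by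
    have h1 : s' = s + ((b : ℝ) / ((e : ℝ) + 1) - c / ((e : ℝ) + 1)) := by rw [hs']; ring
    rw [h1]
    exact (abs_add_le _ _).trans (by linarith)
  have hs'mem : s' ∈ Icc (-1 : ℝ) 1 := abs_le.1 (by linarith)
  refine ⟨(f^[e ^ 2] ⟨n₂, b, ⟨s', hs'mem⟩⟩, max 0 (t - B / ((e : ℝ) + 1) / δ)), ⟨le_max_left _ _,
    max_le (by norm_num) ?_, ?_⟩, ?_⟩
  · have : 0 ≤ (B : ℝ) / ((e : ℝ) + 1) / δ := by positivity
    show t - B / ((e : ℝ) + 1) / δ ≤ 1
    linarith
  · show max 0 (t - B / ((e : ℝ) + 1) / δ) ≤ _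
    rw [zadeh_iter_apply]
    unfold tent
    simp only [hnb, one_mul]
    refine max_le_max le_rfl ?_
    have h1 : |s'| / δ ≤ |(s : ℝ)| / δ + B / ((e : ℝ) + 1) / δ := by
      rw [← add_div]
      exact div_le_div_of_nonneg_right hs'1 hδ.le
    linarith
  · rw [Prod.dist_eq]
    refine max_le ?_ ?_
    · rw [f_iter, f_iter, dist_le_iff]
      have hlev : ∀ j : ℕ, ((1 : ℝ) / 2) ^ (j + e ^ 2) ≤ (1 / 2) ^ e := by
        intro j
        refine pow_le_pow_of_le_one (by norm_num) (by norm_num) ?_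
        nlinarith
      have hlev0 : ∀ j : ℕ, (0 : ℝ) < (1 / 2) ^ (j + e ^ 2) := fun j => by positivity
      have hpe : ((1 : ℝ) / 2) ^ e * (2 * R) ≤ η := by
        have h1 : ((1 : ℝ) / 2) ^ e ≤ (1 / 2) ^ E₂ :=
          pow_le_pow_of_le_one (by norm_num) (by norm_num) (by omega)
        have h2 : ((1 : ℝ) / 2) ^ e < η / (2 * R) := lt_of_le_of_lt h1 hE₂
        rw [lt_div_iff₀ (by positivity)] at h2
        exact h2.le
      have hpe' : (0 : ℝ) < (1 / 2) ^ e := by positivity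
      have hmul : ∀ (j : ℕ) (r : ℝ), |r| ≤ R → |(1 / 2) ^ (j + e ^ 2) * r| ≤ (1 / 2) ^ e * R := by
        intro j r hr
        rw [abs_mul, abs_of_pos (hlev0 j)]
        exact mul_le_mul (hlev j) hr (abs_nonneg _) hpe'.le
      have htri : ∀ (a b : ℝ), |a| ≤ (1 / 2) ^ e * R → |b| ≤ (1 / 2) ^ e * R → |a - b| ≤ η := by
        intro a b h1 h2
        calc |a - b| ≤ |a| + |b| := abs_sub _ _
          _ ≤ η := by linarith
      have hsq : ∀ j ≤ B, Nat.sqrt (j + e ^ 2) = e := by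
        intro j hj
        refine (Nat.eq_sqrt.2 ⟨?_, ?_⟩).symm
        · nlinarith
        · nlinarith
      have hres : ∀ j ≤ B, ∀ c ≤ B, res (j + e ^ 2) c = c := by
        intro j hj c hc
        unfold res
        rw [hsq j hj]
        exact Nat.mod_eq_of_lt (blk_unpair_large (by omega))
      refine ⟨?_, ?_, ?_, ?_⟩
      · have h1 := hmul n 1 (by rw [abs_one]; exact hR1)
        have h2 := hmul n₂ 1 (by rw [abs_one]; exact hR1)
        rw [mul_one] at h1 h2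
        exact htri _ _ h1 h2
      · have hk : ∀ a, |kap a| ≤ R := fun a => by
          have := kap_mem a
          rw [abs_of_nonneg this.1]; linarith
        exact htri _ _ (hmul n _ (hk c)) (hmul n₂ _ (hk b))
      · exact htri _ _ (hmul n _ (hR c hcB s)) (hmul n₂ _ (hR b hB2.2 ⟨s', hs'mem⟩))
      · show |hh (n + e ^ 2) c (YY c s) - hh (n₂ + e ^ 2) b (YY b s')| ≤ η
        unfold hh
        rw [hsq n hnB, hsq n₂ hB2.1, hres n hnB c hcB, hres n₂ hB2.1 b hB2.2,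
          HH_in (by rw [hbc, hek]) s]
        have h1 := HH_in (e := e) (a := b) (by rw [hbb, hek]) ⟨s', hs'mem⟩
        simp only at h1
        rw [h1, hs']
        have h2 : ((e : ℝ) + 1) ^ 2 * (s - c / ((e : ℝ) + 1)) - ((e : ℝ) + 1) ^ 2 *
            (s - c / ((e : ℝ) + 1) + b / ((e : ℝ) + 1) - b / ((e : ℝ) + 1)) = 0 := by ring
        rw [h2, abs_zero]
        exact hη.le
    · rw [Real.dist_eq, abs_le]
      have h1 : (B : ℝ) / ((e : ℝ) + 1) / δ ≤ η := by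
        rw [div_le_iff₀ hδ]; linarith
      have h2 : 0 ≤ (B : ℝ) / ((e : ℝ) + 1) / δ := by positivity
      constructor
      · have : max 0 (t - B / ((e : ℝ) + 1) / δ) ≤ t := max_le ht0 (by linarith)
        show -η ≤ t - max 0 (t - B / ((e : ℝ) + 1) / δ)
        linarith
      · have := le_max_right (0 : ℝ) (t - B / ((e : ℝ) + 1) / δ)
        show t - max 0 (t - B / ((e : ℝ) + 1) / δ) ≤ η
        linarith

lemma prox_tent {k : ℕ} {w₁ w₂ : ℕ × ℕ → ℝ} (h₁ : Adm w₁) (h₂ : Adm w₂)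
    (hb₁ : ∀ p, w₁ p ≠ 0 → blk p.2 = k) (hb₂ : ∀ p, w₂ p ≠ 0 → blk p.2 = k) {δ : ℝ} (hδ : 0 < δ)
    (hδ2 : δ ≤ 1 / 2) : ∀ η > 0, ∀ N : ℕ, ∃ n ≥ N,
      dE ((zadeh f)^[n] (tent w₁ δ)) ((zadeh f)^[n] (tent w₂ δ)) < η := by
  intro η hη N
  obtain ⟨E₁, hE₁⟩ := one_side h₁ h₂ hb₁ hb₂ hδ hδ2 (half_pos hη)
  obtain ⟨E₂, hE₂⟩ := one_side h₂ h₁ hb₂ hb₁ hδ hδ2 (half_pos hη)
  set e := Nat.pair k (E₁ + E₂ + N) with he
  have he1 : E₁ + E₂ + N ≤ e := Nat.right_le_pair _ _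
  have he2 : (Nat.unpair e).1 = k := by rw [he, Nat.unpair_pair]
  refine ⟨e ^ 2, by nlinarith, ?_⟩
  refine lt_of_le_of_lt (hausdorffDist_le_of_mem_dist (half_pos hη).le
    (hE₁ e (by omega) he2) (hE₂ e (by omega) he2)) (by linarith)

/-- a finite net of the endograph -/
lemma exists_net {u : Xp → ℝ} (hu : IsFuzzy u) {ε : ℝ} (hε : 0 < ε) :
    ∃ D : Set (Xp × ℝ), D.Finite ∧ D ⊆ endograph u ∧ (∃ q ∈ D, q.2 = 1) ∧
      ∀ p ∈ endograph u, 0 < p.2 → ∃ q ∈ D, dist p q < ε := by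
  have hcl : IsClosed (endograph u) := by
    have h1 : endograph u = ({p : Xp × ℝ | 0 ≤ p.2} ∩ {p | p.2 ≤ 1}) ∩ {p | p.2 ≤ u p.1} := by
      ext p; simp [endograph, and_assoc]
    rw [h1]
    exact ((isClosed_le continuous_const continuous_snd).inter
      (isClosed_le continuous_snd continuous_const)).inter hu.usc.IsClosed_hypograph
  have hcpt : IsCompact (endograph u ∩ (closure {x | 0 < u x}) ×ˢ Icc (0 : ℝ) 1) :=
    (hu.compact.prod isCompact_Icc).inter_left hcl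
  obtain ⟨t, hts, htf, htc⟩ := finite_approx_of_totallyBounded hcpt.totallyBounded ε hε
  obtain ⟨x₁, hx₁⟩ := hu.normal
  refine ⟨insert (x₁, 1) t, htf.insert _, ?_, ⟨(x₁, 1), mem_insert _ _, rfl⟩, ?_⟩
  · rintro q (rfl | hq)
    · exact ⟨zero_le_one, le_rfl, hx₁.ge⟩
    · exact (hts hq).1
  · intro p hp hp2
    have : p ∈ endograph u ∩ (closure {x | 0 < u x}) ×ˢ Icc (0 : ℝ) 1 :=
      ⟨hp, subset_closure (show 0 < u p.1 from lt_of_lt_of_le hp2 hp.2.2), hp.1, hp.2.1⟩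
    obtain ⟨q, hq, hpq⟩ := mem_iUnion₂.1 (htc this)
    exact ⟨q, mem_insert_of_mem _ hq, hpq⟩

/-- approximation of fuzzy sets by unions of tents in a prescribed late block -/
lemma exists_approx {u : Xp → ℝ} (hu : IsFuzzy u) {ε : ℝ} (hε : 0 < ε) :
    ∃ k₀, ∀ k ≥ k₀, ∃ w, Adm w ∧ (∀ p, w p ≠ 0 → blk p.2 = k) ∧
      ∃ δ₀ > 0, ∀ δ, 0 < δ → δ ≤ δ₀ → dE u (tent w δ) < ε := by
  classical
  have hε3 : 0 < ε / 3 := by positivity
  obtain ⟨D, hDf, hDu, ⟨q₁, hq₁, hq₁1⟩, hnet⟩ := exists_net hu hε3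
  choose K hK using fun x : Xp => exists_centre x hε3
  obtain ⟨k₀, hk₀⟩ : ∃ k₀, ∀ q ∈ D, K q.1 ≤ k₀ :=
    ⟨hDf.toFinset.sup (fun q => K q.1), fun q hq =>
      Finset.le_sup (f := fun q : Xp × ℝ => K q.1) (hDf.mem_toFinset.2 hq)⟩
  refine ⟨k₀, fun k hk => ?_⟩
  have hex : ∀ x : Xp, ∃ c, (K x ≤ k → blk c = k ∧
      dist (⟨x.n, c, ⟨0, by norm_num⟩⟩ : Xp) x < ε / 3) := by
    intro x
    by_cases h : K x ≤ k
    · obtain ⟨c, hc⟩ := hK x k h
      exact ⟨c, fun _ => hc⟩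
    · exact ⟨0, fun h' => absurd h' h⟩
  choose cc hcc using hex
  have hccD : ∀ q ∈ D, blk (cc q.1) = k ∧
      dist (⟨q.1.n, cc q.1, ⟨0, by norm_num⟩⟩ : Xp) q.1 < ε / 3 := fun q hq =>
    hcc q.1 ((hk₀ q hq).trans hk)
  -- weights
  let W : ℕ × ℕ → Set ℝ := fun p => insert 0 {t | ∃ q ∈ D, (q.1.n, cc q.1) = p ∧ t = q.2}
  let w : ℕ × ℕ → ℝ := fun p => sSup (W p)
  have hWf : ∀ p, (W p).Finite := by
    intro p
    refine Set.Finite.insert _ ((hDf.image Prod.snd).subset ?_)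
    rintro t ⟨q, hq, -, rfl⟩
    exact mem_image_of_mem _ hq
  have hWn : ∀ p, (W p).Nonempty := fun p => insert_nonempty _ _
  have hwmem : ∀ p, w p ∈ W p := fun p => (hWn p).csSup_mem (hWf p)
  have hWle : ∀ p, ∀ t ∈ W p, t ≤ w p := fun p t ht => le_csSup (hWf p).bddAbove ht
  have hwq : ∀ p, w p ≠ 0 → ∃ q ∈ D, (q.1.n, cc q.1) = p ∧ w p = q.2 := by
    intro p hp
    rcases hwmem p with h | h
    · exact absurd h hp
    · exact h
  have hqw : ∀ q ∈ D, q.2 ≤ w (q.1.n, cc q.1) := fun q hq =>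
    hWle _ _ (mem_insert_of_mem _ ⟨q, hq, rfl, rfl⟩)
  have hadm : Adm w := by
    refine ⟨fun p => hWle p 0 (mem_insert _ _), fun p => ?_, ?_, ?_⟩
    · by_cases h : w p = 0
      · rw [h]; norm_num
      · obtain ⟨q, hq, -, h2⟩ := hwq p h
        rw [h2]; exact (hDu hq).2.1
    · refine (hDf.image fun q : Xp × ℝ => (q.1.n, cc q.1)).subset ?_
      intro p hp
      obtain ⟨q, hq, h1, -⟩ := hwq p hp
      exact ⟨q, hq, h1⟩
    · refine ⟨(q₁.1.n, cc q₁.1), le_antisymm ?_ ?_⟩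
      · by_cases h : w (q₁.1.n, cc q₁.1) = 0
        · rw [h]; norm_num
        · obtain ⟨q, hq, -, h2⟩ := hwq _ h
          rw [h2]; exact (hDu hq).2.1
      · have := hqw q₁ hq₁
        rwa [hq₁1] at this
  refine ⟨w, hadm, fun p hp => ?_, ?_⟩
  · obtain ⟨q, hq, h1, -⟩ := hwq p hp
    rw [← h1]
    exact (hccD q hq).1
  -- the width
  have hseg : ∀ p : ℕ × ℕ, ∃ δ > 0, ∀ s : Icc (-1 : ℝ) 1, |(s : ℝ)| < δ →
      dist (seg p.1 p.2 s) (seg p.1 p.2 ⟨0, by norm_num⟩) < ε / 3 := by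
    intro p
    obtain ⟨δ, hδ, h⟩ := Metric.continuous_iff.1 (continuous_seg p.1 p.2) ⟨0, by norm_num⟩
      (ε / 3) hε3
    refine ⟨δ, hδ, fun s hs => h s ?_⟩
    rw [Subtype.dist_eq, Real.dist_eq]
    simpa using hs
  choose dd hdd hdd' using hseg
  obtain ⟨p₀, hp₀⟩ := hadm.norm
  obtain ⟨pm, hpm, hpmin⟩ := exists_min_image {p | w p ≠ 0} dd hadm.fin
    ⟨p₀, by show w p₀ ≠ 0; rw [hp₀]; norm_num⟩
  refine ⟨dd pm, hdd pm, fun δ hδ hδ0 => ?_⟩
  refine lt_of_le_of_lt (hausdorffDist_le_of_mem_dist (r := 2 * (ε / 3)) (by positivity) ?_ ?_)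
    (by linarith)
  · rintro ⟨x, t⟩ ⟨ht0, ht1, htx⟩
    simp only at ht0 ht1 htx
    rcases ht0.eq_or_lt with ht | ht
    · refine ⟨(x, t), ⟨ht0, ht1, ?_⟩, by rw [dist_self]; positivity⟩
      rw [← ht]
      exact tent_nonneg hadm δ x
    · obtain ⟨q, hq, hpq⟩ := hnet (x, t) ⟨ht0, ht1, htx⟩ ht
      rw [Prod.dist_eq, max_lt_iff] at hpq
      refine ⟨(⟨q.1.n, cc q.1, ⟨0, by norm_num⟩⟩, q.2), ⟨(hDu hq).1, (hDu hq).2.1, ?_⟩, ?_⟩
      · have := hqw q hq
        simpa [tent] using this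
      · rw [Prod.dist_eq]
        refine max_le ?_ ?_
        · have h1 := (hccD q hq).2
          rw [dist_comm] at h1
          calc dist x (⟨q.1.n, cc q.1, ⟨0, by norm_num⟩⟩ : Xp)
              ≤ dist x q.1 + dist q.1 (⟨q.1.n, cc q.1, ⟨0, by norm_num⟩⟩ : Xp) :=
                dist_triangle _ _ _
            _ ≤ 2 * (ε / 3) := by linarith [hpq.1]
        · exact hpq.2.le.trans (by linarith)
  · rintro ⟨z, t⟩ ⟨ht0, ht1, htx⟩
    simp only at ht0 ht1 htx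
    rcases ht0.eq_or_lt with ht | ht
    · refine ⟨(z, t), ⟨ht0, ht1, ?_⟩, by rw [dist_self]; positivity⟩
      rw [← ht]
      exact hu.nonneg z
    · obtain ⟨n, c, s⟩ := z
      have hw1 : w (n, c) ≠ 0 := by
        intro h
        unfold tent at htx
        simp only [h, zero_mul] at htx
        linarith
      have hpos : 0 < 1 - |(s : ℝ)| / δ := by
        by_contra h
        push Not at h
        unfold tent at htx
        simp only at htx
        rw [max_eq_left h, mul_zero] at htx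
        linarith
      have htw : t ≤ w (n, c) := by
        unfold tent at htx
        simp only at htx
        rw [max_eq_right hpos.le] at htx
        have h1 : 1 - |(s : ℝ)| / δ ≤ 1 := by
          have : 0 ≤ |(s : ℝ)| / δ := by positivity
          linarith
        have := mul_le_mul_of_nonneg_left h1 (hadm.nonneg (n, c))
        linarith
      have hs : |(s : ℝ)| < δ := by
        have h1 : |(s : ℝ)| / δ < 1 := by linarith
        rwa [div_lt_one hδ] at h1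
      obtain ⟨q, hq, h1, h2⟩ := hwq (n, c) hw1
      refine ⟨(q.1, t), ⟨ht0, ht1, ?_⟩, ?_⟩
      · show t ≤ u q.1
        rw [h2] at htw
        exact htw.trans (hDu hq).2.2
      · rw [Prod.dist_eq]
        refine max_le ?_ (by rw [dist_self]; positivity)
        have h3 := (hccD q hq).2
        simp only [Prod.mk.injEq] at h1
        have h4 : (⟨q.1.n, cc q.1, ⟨0, by norm_num⟩⟩ : Xp) = seg n c ⟨0, by norm_num⟩ := by
          unfold seg
          rw [h1.1, h1.2]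
        rw [h4] at h3
        have h5 := hdd' (n, c) s (lt_of_lt_of_le (lt_of_lt_of_le hs hδ0) (hpmin (n, c) hw1))
        simp only at h5
        have h6 : (⟨n, c, s⟩ : Xp) = seg n c s := rfl
        show dist (⟨n, c, s⟩ : Xp) q.1 ≤ 2 * (ε / 3)
        rw [h6]
        calc dist (seg n c s) q.1 ≤ dist (seg n c s) (seg n c ⟨0, by norm_num⟩) +
              dist (seg n c ⟨0, by norm_num⟩) q.1 := dist_triangle _ _ _
          _ ≤ 2 * (ε / 3) := by linarith

lemma denseProximalFuzzy : DenseProximalFuzzy f := by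
  intro u v hu hv ε hε
  obtain ⟨k₁, hk₁⟩ := exists_approx hu hε
  obtain ⟨k₂, hk₂⟩ := exists_approx hv hε
  obtain ⟨w₁, hw₁, hb₁, δ₁, hδ₁, ha₁⟩ := hk₁ (max k₁ k₂) (le_max_left _ _)
  obtain ⟨w₂, hw₂, hb₂, δ₂, hδ₂, ha₂⟩ := hk₂ (max k₁ k₂) (le_max_right _ _)
  set δ := min (1 / 2) (min δ₁ δ₂) with hδ
  have hδ0 : 0 < δ := lt_min (by norm_num) (lt_min hδ₁ hδ₂)
  refine ⟨tent w₁ δ, tent w₂ δ, isFuzzy_tent hw₁ hδ0, isFuzzy_tent hw₂ hδ0,
    ha₁ δ hδ0 ((min_le_right _ _).trans (min_le_left _ _)),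
    ha₂ δ hδ0 ((min_le_right _ _).trans (min_le_right _ _)), ?_⟩
  exact prox_tent hw₁ hw₂ hb₁ hb₂ hδ0 (min_le_left _ _)

end Pool.Agent.X194.FZ
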